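import Pool.Agent.H652.PV.KZ

/-!
# MP_2cf66e_nt: periods, reciprocals of polynomials and preimages of balls under quadratic maps

`IsPeriod v` says that the real number `v` is a period, in the form of the frozen statement `S16425`, which is
`IsPeriod e`. The theorem is about an arbitrary real number `v`; the case of the problem is `v = e`.

* `RecInt v`: `v = ∫_{ℝ ^ n} dx / p (x) - ∫_{ℝ ^ n} dx / q (x)` for some `n ≥ 1` and polynomials `p ≥ 1`, `q ≥ 1`
  with integer coefficients such that `1 / p` and `1 / q` are integrable over the whole space `ℝ ^ n`. There are
  no domain, no poles and no numerators.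
* `QuadQuot v`: `v = (vol B - vol B') / vol B''` where `B`, `B'`, `B''` are the preimages in `ℝ ^ n` of unit
  balls under polynomial maps of degree at most two with integer coefficients, i.e. regions `∑ q_i ^ 2 < 1` with
  quadratic polynomials `q_i`; they have finite volume.

1. If `v` is a period, then `π ^ 5 v` is a difference of two integrals of reciprocals of polynomials over the
   whole space, and `v` itself is a quotient of the second kind. So, in order to show that `e` is not a period,
   it is enough to show that `π ^ 5 e` or `e` does not have the corresponding form.

2. The number `v` belongs to the ring of periods with `1 / π` adjoined (that is, `π ^ k v` is a period for some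
   `k`) if and only if some `π ^ k v` is a difference of two integrals of reciprocals of polynomials.

3. The number `v` is a quotient of two real periods if and only if it is a quotient of two differences of
   integrals of reciprocals of polynomials.

Proof. A real period is a difference of the volumes of two regions `F > 0`, `G > 0` (single inequalities). For
`A ≠ 0` the integral over `(a, b) ∈ ℝ ^ 2`, `s = a ^ 2 + b ^ 2`, of

     `1 / (1 + (s - A) ^ 2) + A / (1 + A ^ 2 (1 + s) ^ 2)`

is `π ^ 2` if `A > 0`, and it is ZERO if `A < 0`. With `A = F (x) ∏ (1 + x_i ^ 2) ^ (2 d)`, `d > deg F`, this is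
integrable over `ℝ ^ (n + 2)`. So `π ^ 2 v` is the integral of a rational function over the whole space.
(That `π` times a period is such an integral, with denominators `Q > 0`, and conversely, was proved before,
with a different function, by helper216: `MP_725b61_nt`, WholeSpaceIntegrals.) The numerator is removed by the
integral over `ℝ ^ 4`, `s = a ^ 2 + b ^ 2 + c ^ 2 + d ^ 2`,

     `∫ 1 / (1 + (s - P) ^ 2) ^ 2 - ∫ 1 / (1 + (s + P) ^ 2) ^ 2 = (π ^ 3 / 2) P`.

The second form is obtained from a sum of squares `E` of quadratic polynomials such that the integral over the
new variables of the indicator function of `E < 1 / 4` is a constant times the indicator function of `F > 0`: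
`F` is evaluated by a tree, and the constant does not depend on the point by rotation invariance (see
QuarticRegions and IntegralsOverSpace for the problem MP_bbe012_lc, where the effective versions are used).
-/

set_option autoImplicit false
set_option synthInstance.maxSize 2000

namespace Pool.Agent.Results.MP_2cf66e_nt.IntegralsOverSpace

open Pool.Agent.H652.PV.KZ

theorem result (v : ℝ) :
    (IsPeriod v → RecInt (Real.pi ^ 5 * v) ∧ QuadQuot v) ∧
    ((∃ k : ℕ, IsPeriod (Real.pi ^ k * v)) ↔ ∃ k : ℕ, RecInt (Real.pi ^ k * v)) ∧
    ((∃ a b : ℝ, IsPeriod a ∧ IsPeriod b ∧ b ≠ 0 ∧ a / b = v) ↔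
      ∃ a b : ℝ, RecInt a ∧ RecInt b ∧ b ≠ 0 ∧ a / b = v) :=
  ⟨fun h => ⟨rec_of_isPeriod h, quad_of_isPeriod h⟩, (over_pi v).out 0 2, (quotients v).out 0 2⟩

end Pool.Agent.Results.MP_2cf66e_nt.IntegralsOverSpace
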