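import Pool.Agent.H839.PV.Mom

/-!
# A single polynomial inequality suffices for every real period

A real number is a period (in the form of the frozen statement: an absolutely convergent integral of a rational
function over a finite union of basic open semialgebraic sets) if and only if it is the integral of one
coordinate over a region `{f > 0}` given by a **single** polynomial `f` with integer coefficients, and if and only
if it is the difference of the volumes of two regions `{f > 0}`, `{g > 0}`, each given by a single polynomial with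
integer coefficients, in the same number of variables.

The library results FirstMoment and DifferenceOfTwoVolumes express the periods by regions given by systems of
(bilinear) inequalities. The new step merges two inequalities `A > 0`, `B > 0` into one, with three additional
variables, without changing the volume: with `a = u² A - 1`, `b = v² B - 1` the region
`225 (1 - a² - b²) (u A a)² (v B b)² > 64 w²` of the `(u, v, w)`-space has volume `1` if `A, B > 0`, and is empty
otherwise.
-/

set_option autoImplicit false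

namespace Pool.Agent.Results.MP_2cf66e_nt.OneInequality

open MeasureTheory Pool.Agent.H839.PV

/-- The form of the frozen statement, for a real number `v`. -/
def IsPeriod (v : ℝ) : Prop :=
  ∃ (n : ℕ) (P Q : MvPolynomial (Fin n) ℚ) (k m : ℕ)
      (p : Fin k → Fin m → MvPolynomial (Fin n) ℚ),
      IntegrableOn
        (fun x : Fin n → ℝ => (MvPolynomial.aeval x P / MvPolynomial.aeval x Q : ℝ))
        {x : Fin n → ℝ | ∃ j, ∀ i, 0 < (MvPolynomial.aeval x (p j i) : ℝ)} volume ∧
      (∫ x in {x : Fin n → ℝ | ∃ j, ∀ i, 0 < (MvPolynomial.aeval x (p j i) : ℝ)},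
          (MvPolynomial.aeval x P / MvPolynomial.aeval x Q : ℝ)) = v

/-- The region `f > 0` of `ℝ ^ n`. -/
def Pos {n : ℕ} (f : MvPolynomial (Fin n) ℤ) : Set (Fin n → ℝ) := {x | 0 < (MvPolynomial.aeval x f : ℝ)}

theorem mem_closure {v : ℝ} (h : IsPeriod v) : v ∈ AddSubgroup.closure Q54.KZ.bas := by
  obtain ⟨n, P, Q, k, m, p, h1, h2⟩ := h
  have h3 : {x : Fin n → ℝ | ∃ j, ∀ i, 0 < (MvPolynomial.aeval x (p j i) : ℝ)} =
      Q54.KZ.uni (List.ofFn fun j => List.ofFn (p j)) := by
    ext x
    simp only [Q54.KZ.uni, Set.mem_ofPred_eq, List.mem_ofFn', Set.mem_range, exists_exists_eq_and,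
      forall_exists_index, forall_apply_eq_imp_iff]
  rw [h3] at h1 h2
  have h4 := Q54.KZ.integral_uni_mem k (List.ofFn fun j => List.ofFn (p j)) (by simp) P Q h1
  rw [h2] at h4
  exact Q54.KZ.vols_le h4

theorem moment_of_closure {v : ℝ} (h : v ∈ AddSubgroup.closure Q54.KZ.bas) :
    ∃ (n : ℕ) (i : Fin n) (f : MvPolynomial (Fin n) ℤ),
      IntegrableOn (fun x => x i) (Pos f) ∧ ∫ x in Pos f, x i = v := by
  obtain ⟨n, m, r, T, -, h1, h2⟩ := Q54.KZ.exists_moment h
  have h3 := Q54.KZ.integral_coord T
  choose P hP using fun c : Fin r => clear_pos (Q54.KZ.bil (T c))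
  have h4 : {z : Fin (n + 1 + m) → ℝ | ∀ c, 0 < (MvPolynomial.aeval z (Q54.KZ.bil (T c)) : ℝ)} =
      {x | ∀ A ∈ List.ofFn P, 0 < (MvPolynomial.aeval x A : ℝ)} := by
    ext x
    simp only [Set.mem_ofPred_eq, List.mem_ofFn', Set.mem_range, forall_exists_index, forall_apply_eq_imp_iff, hP]
  rw [h4] at h3
  obtain ⟨k, F, h5, h6⟩ := moment_single (Fin.castAdd m 0) (List.ofFn P) (h3.1.1 h1)
  refine ⟨_, _, F, h5, ?_⟩
  have h7 : ∫ x in Pos F, x (Fin.castAdd k (Fin.castAdd m 0)) = _ := h6
  rw [h7, h3.2]
  exact h2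

theorem aeval_map {n : ℕ} (f : MvPolynomial (Fin n) ℤ) (x : Fin n → ℝ) :
    (MvPolynomial.aeval x (MvPolynomial.map (Int.castRingHom ℚ) f) : ℝ) = MvPolynomial.aeval x f := by
  rw [MvPolynomial.aeval_def, MvPolynomial.aeval_def, MvPolynomial.eval₂_map]
  congr 1

theorem period_of_moment {v : ℝ} (h : ∃ (n : ℕ) (i : Fin n) (f : MvPolynomial (Fin n) ℤ),
      IntegrableOn (fun x => x i) (Pos f) ∧ ∫ x in Pos f, x i = v) : IsPeriod v := by
  obtain ⟨n, i, f, h1, h2⟩ := h
  have h4 : {x : Fin n → ℝ | ∃ _j : Fin 1, ∀ _i : Fin 1,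
      0 < (MvPolynomial.aeval x (MvPolynomial.map (Int.castRingHom ℚ) f) : ℝ)} = Pos f := by
    ext x
    simp [aeval_map, Pos]
  refine ⟨n, MvPolynomial.X i, 1, 1, 1, fun _ _ => MvPolynomial.map (Int.castRingHom ℚ) f, ?_, ?_⟩
  · simp only [MvPolynomial.aeval_X, map_one, div_one]
    rw [h4]
    exact h1
  · simp only [MvPolynomial.aeval_X, map_one, div_one]
    rw [h4]
    exact h2

theorem vol_mem {n : ℕ} (f : MvPolynomial (Fin n) ℤ) (h : volume (Pos f) ≠ ⊤) :
    (volume (Pos f)).toReal ∈ AddSubgroup.closure Q54.KZ.bas := by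
  apply mem_closure
  have h4 : {x : Fin n → ℝ | ∃ _j : Fin 1, ∀ _i : Fin 1,
      0 < (MvPolynomial.aeval x (MvPolynomial.map (Int.castRingHom ℚ) f) : ℝ)} = Pos f := by
    ext x
    simp [aeval_map, Pos]
  refine ⟨n, 1, 1, 1, 1, fun _ _ => MvPolynomial.map (Int.castRingHom ℚ) f, ?_, ?_⟩
  · simp only [map_one, div_one]
    rw [h4]
    exact integrableOn_const h
  · simp only [map_one, div_one]
    rw [h4]
    simp [Measure.real]

/-- **Theorem.** A real number `v` is a period if and only if `v = ∫_{f > 0} x_i dx` for one polynomial `f` with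
integer coefficients and a coordinate `x_i`, and if and only if `v = vol {f > 0} - vol {g > 0}` for two
polynomials `f`, `g` with integer coefficients in the same number of variables. -/
theorem result (v : ℝ) :
    (IsPeriod v ↔ ∃ (n : ℕ) (i : Fin n) (f : MvPolynomial (Fin n) ℤ),
      IntegrableOn (fun x => x i) (Pos f) ∧ ∫ x in Pos f, x i = v) ∧
    (IsPeriod v ↔ ∃ (n : ℕ) (f g : MvPolynomial (Fin n) ℤ), volume (Pos f) ≠ ⊤ ∧ volume (Pos g) ≠ ⊤ ∧
      (volume (Pos f)).toReal - (volume (Pos g)).toReal = v) := by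
  refine ⟨⟨fun h => moment_of_closure (mem_closure h), period_of_moment⟩, ?_, ?_⟩
  · intro h
    obtain ⟨n, i, f, h1, rfl⟩ := moment_of_closure (mem_closure h)
    exact moment_vol i f h1
  · rintro ⟨n, f, g, h1, h2, rfl⟩
    exact period_of_moment (moment_of_closure (AddSubgroup.sub_mem _ (vol_mem f h1) (vol_mem g h2)))

end Pool.Agent.Results.MP_2cf66e_nt.OneInequality
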